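import Pool.Agent.Helper37K9.Snark.Final

/-!
# There are infinitely many rotation snarks: a rotation `T_i`-snark for every `i ≥ 3`

The tree `T_i` is given explicitly. Its vertices are the centre `none` and the pairs `some (j, w)`
where `j = 0, 1, 2` is the number of the branch and `w` is a word of length less than `i` in the
letters `false`, `true`; the centre is joined to the three vertices `some (j, [])`, and `some (j, w)`
is joined to its two children `some (j, w ++ [false])`, `some (j, w ++ [true])`. The leaves are the
`some (j, w)` with `w` of length `i - 1`, their distance to the centre is `i`, and their labels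
`0, 1, ..., l_i - 1`, `l_i = 3 * 2 ^ (i - 1)`, are given from left to right in the usual plane
drawing of the tree (`label`: the label of `some (j, w)` is `j * 2 ^ (i - 1)` plus the number with
the binary digits `w`). So the labels of the leaves below any vertex other than the centre are
consecutive numbers, and the leaves `l_i - 1` and `0` are in different branches: these are the
conditions (1) and (2) of the problem. Conversely, every labelled plane drawing of `T_i` as in (1)
and (2) is of this form.

The snarks are obtained from three copies of a multipole with five semiedges whose graph has the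
perfect binary tree as a spanning tree; the multipole for `i + 1` consists of two copies of the
multipole for `i` and a new root.
-/

set_option autoImplicit false

namespace Pool.Agent.Results.MP_3688cb_co.RotationSnarksEveryDepth

/-- Every vertex has exactly three neighbours. -/
def IsCubic {V : Type} (G : SimpleGraph V) : Prop := ∀ v, (G.neighborSet v).ncard = 3

/-- Cyclic `k`-edge-connectivity: if fewer than `k` edges are deleted, then any two cycles of the
remaining graph lie in the same component. -/
def CyclicallyEdgeConnected {V : Type} (k : ℕ) (G : SimpleGraph V) : Prop :=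
  ∀ F : Finset (Sym2 V), F.card < k → ∀ (u v : V)
    (p : (G.deleteEdges (F : Set (Sym2 V))).Walk u u)
    (q : (G.deleteEdges (F : Set (Sym2 V))).Walk v v),
    p.IsCycle → q.IsCycle → (G.deleteEdges (F : Set (Sym2 V))).Reachable u v

/-- There is a proper edge colouring with three colours. -/
def ThreeEdgeColorable {V : Type} (G : SimpleGraph V) : Prop :=
  ∃ c : Sym2 V → Fin 3, ∀ e ∈ G.edgeSet, ∀ f ∈ G.edgeSet, e ≠ f → (∃ v, v ∈ e ∧ v ∈ f) → c e ≠ c f

/-- A snark: a cubic, cyclically `4`-edge-connected graph of girth at least `5` without a proper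
`3`-edge-colouring. -/
structure IsSnark {V : Type} (G : SimpleGraph V) : Prop where
  cubic : IsCubic G
  connected : CyclicallyEdgeConnected 4 G
  girth : 5 ≤ G.egirth
  uncolorable : ¬ ThreeEdgeColorable G

/-- The vertices of the tree `T_i`. -/
abbrev TVertex (i : ℕ) : Type := Option (Fin 3 × {w : List Bool // w.length < i})

/-- `b` is a child of `a` in the tree `T_i`. -/
def IsChild {i : ℕ} : TVertex i → TVertex i → Prop
  | none, some (_, w) => w.1 = []
  | some (j, w), some (k, u) => k = j ∧ ∃ b : Bool, u.1 = w.1 ++ [b]
  | _, none => False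

/-- The leaves of `T_i`. -/
def IsLeaf {i : ℕ} : TVertex i → Prop
  | none => False
  | some (_, w) => w.1.length + 1 = i

/-- The number with the binary digits `w`, the most significant digit first. -/
def value : List Bool → ℕ
  | [] => 0
  | b :: w => b.toNat * 2 ^ w.length + value w

/-- The labels `0, 1, ..., 3 * 2 ^ (i - 1) - 1` of the leaves, from left to right. -/
def label {i : ℕ} : TVertex i → ℕ
  | none => 0
  | some (j, w) => (j : ℕ) * 2 ^ (i - 1) + value w.1

/-- `G` is a rotation `T_i`-snark: it is a snark with a spanning tree `T_i`, embedded by `φ`, such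
that if two leaves are adjacent in `G` then so are the leaves whose labels are larger by
`l_i / 3 = 2 ^ (i - 1)`, modulo `l_i = 3 * 2 ^ (i - 1)`. -/
def IsRotationTSnark (i : ℕ) {V : Type} (G : SimpleGraph V) : Prop :=
  2 ≤ i ∧ IsSnark G ∧ ∃ φ : TVertex i ≃ V, (∀ a b, IsChild a b → G.Adj (φ a) (φ b)) ∧
    ∀ a b a' b', IsLeaf a → IsLeaf b → IsLeaf a' → IsLeaf b' →
      label a' = (label a + 2 ^ (i - 1)) % (3 * 2 ^ (i - 1)) →
      label b' = (label b + 2 ^ (i - 1)) % (3 * 2 ^ (i - 1)) →
      G.Adj (φ a) (φ b) → G.Adj (φ a') (φ b')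

open Pool.Agent.Helper37K9.Snark

theorem value_lt : ∀ w : List Bool, value w < 2 ^ w.length
  | [] => by simp [value]
  | b :: w => by
    have h := value_lt w
    have h2 : 2 ^ (w.length + 1) = 2 ^ w.length + 2 ^ w.length := by ring
    simp only [value, List.length_cons]
    cases b
    · simp; omega
    · simp; omega

/-- Sanity check for the plane drawing: the leaves `some (j, w ++ u)` below the vertex `some (j, w)`
have the consecutive labels `j * 2 ^ (i - 1) + value w * 2 ^ u.length + value u`, where
`0 ≤ value u < 2 ^ u.length`. -/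
theorem value_append (w u : List Bool) : value (w ++ u) = value w * 2 ^ u.length + value u := by
  induction w with
  | nil => simp [value]
  | cons b w ih =>
    simp only [List.cons_append, value, ih, List.length_append]
    ring

theorem value_inj : ∀ w u : List Bool, w.length = u.length → value w = value u → w = u
  | [], [], _, _ => rfl
  | [], _ :: _, h, _ => by simp at h
  | _ :: _, [], h, _ => by simp at h
  | b :: w, c :: u, h, h' => by
    have hl : w.length = u.length := by simpa using h
    have h1 := value_lt w
    have h2 := value_lt u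
    rw [hl] at h1
    simp only [value, hl] at h'
    cases b <;> cases c
    · simp at h'
      rw [value_inj w u hl h']
    · simp at h'; omega
    · simp at h'; omega
    · simp at h'
      rw [value_inj w u hl h']

theorem label_step {P j j' v v' : ℕ} (hj : j < 3) (hj' : j' < 3) (hv : v < P) (hv' : v' < P)
    (h : j' * P + v' = (j * P + v + P) % (3 * P)) : j' = (j + 1) % 3 ∧ v' = v := by
  have hP : 0 < P := by omega
  interval_cases j
  · rw [Nat.mod_eq_of_lt (by omega)] at h
    interval_cases j' <;> omega
  · rw [Nat.mod_eq_of_lt (by omega)] at h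
    interval_cases j' <;> omega
  · have e : (2 * P + v + P) % (3 * P) = v := by
      rw [show 2 * P + v + P = v + 3 * P by ring, Nat.add_mod_right, Nat.mod_eq_of_lt (by omega)]
    rw [e] at h
    interval_cases j' <;> omega

theorem cycle_nbr {V : Type} {H : SimpleGraph V} {a : V} (p : H.Walk a a) (hp : p.IsCycle) :
    ∃ b, b ≠ a ∧ H.Reachable a b := by
  cases p with
  | nil => exact absurd rfl hp.ne_nil
  | cons h p => exact ⟨_, h.ne.symm, h.reachable⟩

theorem ring_snark {M : MP} {n : ℕ} (hM : M.Good n) (hB : M.Bad) : IsSnark (ringGraph hM) where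
  cubic := by
    intro v
    classical
    have h1 : ((ringGraph hM).neighborSet v) = ↑(Finset.univ.filter (fun w => M.rA v w = 1)) := by
      ext w
      simp [ringGraph, SimpleGraph.mem_neighborSet]
    rw [h1, Set.ncard_coe_finset]
    have h2 := rA_deg hM v
    rw [Finset.card_filter]
    refine Eq.trans (Finset.sum_congr rfl fun w _ => ?_) h2
    have h3 := rA_le hM v w
    by_cases h4 : M.rA v w = 1
    · rw [if_pos h4, h4]
    · rw [if_neg h4]; omega
  connected := by
    intro F hF u v p q hp hq
    classical
    obtain ⟨u', hu, hu'⟩ := cycle_nbr p hp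
    obtain ⟨v', hv, hv'⟩ := cycle_nbr q hq
    by_contra hcon
    clear hp hq
    obtain ⟨H, hH⟩ : ∃ H, H = (ringGraph hM).deleteEdges (F : Set (Sym2 _)) := ⟨_, rfl⟩
    rw [← hH] at hu' hv' hcon
    obtain ⟨x, hx1⟩ : ∃ x : Option (Fin 3 × M.V) → Bool, ∀ w, x w = true ↔ H.Reachable u w :=
      ⟨fun w => decide (H.Reachable u w), fun w => by simp⟩
    have s1 : 2 ≤ ∑ w, (x w).toNat := by
      calc 2 = ∑ w ∈ ({u, u'} : Finset _), (x w).toNat := by
            rw [Finset.sum_pair hu.symm, (hx1 u).2 (SimpleGraph.Reachable.refl u), (hx1 u').2 hu']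
            rfl
        _ ≤ _ := Finset.sum_le_univ_sum_of_nonneg (fun _ => Nat.zero_le _)
    have s2 : 2 ≤ ∑ w, (!x w).toNat := by
      have hxv : x v = false := by
        by_contra h
        exact hcon ((hx1 v).1 (by simpa using h))
      have hxv' : x v' = false := by
        by_contra h
        exact hcon (((hx1 v').1 (by simpa using h)).trans hv'.symm)
      calc 2 = ∑ w ∈ ({v, v'} : Finset _), (!x w).toNat := by
            rw [Finset.sum_pair hv.symm, hxv, hxv']
            rfl
        _ ≤ _ := Finset.sum_le_univ_sum_of_nonneg (fun _ => Nat.zero_le _)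
    have h4 := ring_cut hM x s1 s2
    -- the cut is contained in `F`
    have h5 : M.rcut x ≤ F.card := by
      set S : Finset (Option (Fin 3 × M.V) × Option (Fin 3 × M.V)) :=
        Finset.univ.filter (fun a => (x a.1 = true ∧ x a.2 = false) ∧ M.rA a.1 a.2 = 1) with hS
      have h6 : M.rcut x ≤ S.card := by
        unfold MP.rcut
        rw [← Finset.sum_product', hS, Finset.card_filter]
        refine Finset.sum_le_sum fun a _ => ?_
        have h3 := rA_le hM a.1 a.2
        by_cases h7 : x a.1 = true ∧ x a.2 = false
        · rw [if_pos h7]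
          by_cases h8 : M.rA a.1 a.2 = 1
          · rw [if_pos ⟨h7, h8⟩, h8]
          · omega
        · rw [if_neg h7]
          exact Nat.zero_le _
      refine h6.trans ?_
      refine Finset.card_le_card_of_injOn (fun a => s(a.1, a.2)) ?_ ?_
      · intro a ha
        have ha' := (Finset.mem_filter.1 (Finset.mem_coe.1 ha)).2
        by_contra hnot
        have hadj : H.Adj a.1 a.2 := by
          rw [hH, SimpleGraph.deleteEdges_adj]
          exact ⟨ha'.2, hnot⟩
        have h9 := ((hx1 a.1).1 ha'.1.1).trans hadj.reachable
        rw [← hx1 a.2, ha'.1.2] at h9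
        simp at h9
      · intro a ha b hb hab
        have ha' := (Finset.mem_filter.1 (Finset.mem_coe.1 ha)).2
        have hb' := (Finset.mem_filter.1 (Finset.mem_coe.1 hb)).2
        rcases Sym2.eq_iff.1 hab with ⟨h1, h2⟩ | ⟨h1, h2⟩
        · exact Prod.ext h1 h2
        · have := ha'.1.1
          rw [h1, hb'.1.2] at this
          simp at this
    omega
  girth := girth_of (rA_tri hM) (rA_quad hM)
  uncolorable := by
    rintro ⟨c, hc⟩
    refine ring_col hM hB (fun v w => c s(v, w)) (fun v w => by rw [Sym2.eq_swap]) ?_
    intro v w w' h1 h2 hne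
    refine hc _ h1 _ h2 ?_ ⟨v, by simp, by simp⟩
    intro h
    rcases Sym2.eq_iff.1 h with ⟨-, h⟩ | ⟨h, h'⟩
    · exact hne h
    · exact hne (h'.trans h)

theorem ring_rotation {M : MP} {n : ℕ} (hn : 1 ≤ n) (hM : M.Good n) (hB : M.Bad) :
    IsRotationTSnark (n + 1) (ringGraph hM) := by
  refine ⟨by omega, ring_snark hM hB, ?_⟩
  have hb : Function.Bijective (fun v : M.V =>
      (⟨M.word v, Nat.lt_succ_of_le (hM.wlen v)⟩ : {w : List Bool // w.length < n + 1})) := by
    constructor
    · intro v w h
      exact hM.winj (Subtype.ext_iff.1 h)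
    · rintro ⟨w, hw⟩
      obtain ⟨v, hv⟩ := hM.wsurj w (Nat.le_of_lt_succ hw)
      exact ⟨v, Subtype.ext hv⟩
  let e : M.V ≃ {w : List Bool // w.length < n + 1} := Equiv.ofBijective _ hb
  have he : ∀ w, M.word (e.symm w) = w.1 := fun w => by
    have := e.apply_symm_apply w
    exact Subtype.ext_iff.1 this
  refine ⟨Equiv.optionCongr (Equiv.prodCongr (Equiv.refl _) e.symm), ?_, ?_⟩
  · rintro (_ | ⟨j, w⟩) (_ | ⟨k, u⟩) h
    · exact h.elim
    · have hu : e.symm u = M.r := hM.winj ((he u).trans (h.trans hM.wr.symm))
      show M.rA none (some (k, e.symm u)) = 1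
      rw [rA_ns, if_pos hu]
    · exact h.elim
    · obtain ⟨rfl, b, hb⟩ := h
      show M.rA (some (k, e.symm w)) (some (k, e.symm u)) = 1
      rw [rA_ss, if_pos rfl]
      exact hM.wtree _ _ b (by rw [he, he, hb])
  · intro a b a' b' ha hb ha' hb' h1 h2 h
    rcases a with _ | ⟨j, w⟩
    · exact ha.elim
    rcases b with _ | ⟨k, u⟩
    · exact hb.elim
    rcases a' with _ | ⟨j', w'⟩
    · exact ha'.elim
    rcases b' with _ | ⟨k', u'⟩
    · exact hb'.elim
    have lw : w.1.length = n := by have : w.1.length + 1 = n + 1 := ha; omega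
    have lu : u.1.length = n := by have : u.1.length + 1 = n + 1 := hb; omega
    have lw' : w'.1.length = n := by have : w'.1.length + 1 = n + 1 := ha'; omega
    have lu' : u'.1.length = n := by have : u'.1.length + 1 = n + 1 := hb'; omega
    have vw := value_lt w.1
    have vu := value_lt u.1
    have vw' := value_lt w'.1
    have vu' := value_lt u'.1
    rw [lw] at vw
    rw [lu] at vu
    rw [lw'] at vw'
    rw [lu'] at vu'
    obtain ⟨hj, hv⟩ := label_step j.2 j'.2 vw vw' h1
    obtain ⟨hk, hv2⟩ := label_step k.2 k'.2 vu vu' h2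
    have ew : w' = w := Subtype.ext (value_inj _ _ (lw'.trans lw.symm) hv)
    have eu : u' = u := Subtype.ext (value_inj _ _ (lu'.trans lu.symm) hv2)
    have ej : j' = j + 1 := by
      apply Fin.ext
      rw [hj, Fin.val_add]
      rfl
    have ek : k' = k + 1 := by
      apply Fin.ext
      rw [hk, Fin.val_add]
      rfl
    subst ew eu ej ek
    change M.rA (some (j, e.symm w')) (some (k, e.symm u')) = 1 at h
    show M.rA (some (j + 1, e.symm w')) (some (k + 1, e.symm u')) = 1
    rw [rA_ss] at h ⊢
    by_cases c1 : j = k
    · rw [if_pos c1] at h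
      rw [if_pos (by rw [c1])]
      exact h
    · rw [if_neg c1] at h
      rw [if_neg (fun hh => c1 (by simpa using hh))]
      by_cases c2 : k = j + 1
      · rw [if_pos c2] at h
        rw [if_pos (by rw [c2])]
        exact h
      · rw [if_neg c2] at h
        rw [if_neg (fun hh => c2 (by simpa using hh))]
        exact h

theorem card_TVertex (i : ℕ) : Nat.card (TVertex i) = 3 * 2 ^ i - 2 := by
  have h : ∀ n : ℕ, Nat.card {w : List Bool // w.length < n} = 2 ^ n - 1 ∧
      Finite {w : List Bool // w.length < n} := by
    intro n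
    induction n with
    | zero =>
      have : IsEmpty {w : List Bool // w.length < 0} := ⟨fun w => absurd w.2 (by simp)⟩
      exact ⟨by simp, inferInstance⟩
    | succ n ih =>
      obtain ⟨h1, h2⟩ := ih
      let f : Option (Bool × {w : List Bool // w.length < n}) → {w : List Bool // w.length < n + 1} :=
        fun v => match v with
          | none => ⟨[], by simp⟩
          | some (b, w) => ⟨b :: w.1, by simpa using w.2⟩
      have hf : Function.Bijective f := by
        constructor
        · rintro (_ | ⟨b, w⟩) (_ | ⟨c, u⟩) h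
          · rfl
          · simp [f] at h
          · simp [f] at h
          · simp only [f, Subtype.mk.injEq, List.cons.injEq] at h
            rw [h.1, Subtype.ext h.2]
        · rintro ⟨_ | ⟨b, w⟩, hw⟩
          · exact ⟨none, rfl⟩
          · exact ⟨some (b, ⟨w, by simpa using hw⟩), rfl⟩
      have hfin : Finite {w : List Bool // w.length < n + 1} := Finite.of_surjective f hf.2
      refine ⟨?_, hfin⟩
      rw [← Nat.card_congr (Equiv.ofBijective f hf), Finite.card_option, Nat.card_prod, h1]
      have h3 : 1 ≤ 2 ^ n := Nat.one_le_two_pow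
      have h4 : 2 ^ (n + 1) = 2 * 2 ^ n := by ring
      simp
      omega
  obtain ⟨h1, h2⟩ := h i
  rw [Finite.card_option, Nat.card_prod, h1]
  have h3 : 1 ≤ 2 ^ i := Nat.one_le_two_pow
  simp
  omega

/-- **There are infinitely many rotation snarks.** For every `i ≥ 3` there is a rotation
`T_i`-snark; so there is a sequence of pairwise non-isomorphic rotation snarks. -/
theorem result :
    (∀ i : ℕ, 3 ≤ i → ∃ (V : Type) (_ : Finite V) (G : SimpleGraph V), IsRotationTSnark i G) ∧
    ∃ (V : ℕ → Type) (_ : ∀ k, Finite (V k)) (G : ∀ k, SimpleGraph (V k)),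
      (∀ k, ∃ i, IsRotationTSnark i (G k)) ∧ ∀ k l, k ≠ l → IsEmpty (G k ≃g G l) := by
  have key : ∀ k : ℕ, ∃ (V : Type) (_ : Finite V) (G : SimpleGraph V),
      IsRotationTSnark (k + 3) G := by
    intro k
    obtain ⟨M, hM, hB⟩ := exists_bad (k + 2) (by omega)
    exact ⟨_, inferInstance, ringGraph hM, ring_rotation (by omega) hM hB⟩
  refine ⟨fun i hi => ?_, ?_⟩
  · obtain ⟨V, hV, G, hG⟩ := key (i - 3)
    rw [show i - 3 + 3 = i by omega] at hG
    exact ⟨V, hV, G, hG⟩
  · choose V hV G hG using key
    refine ⟨V, hV, G, fun k => ⟨_, hG k⟩, ?_⟩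
    intro k l hkl
    refine ⟨fun f => hkl ?_⟩
    obtain ⟨-, -, φ, -⟩ := hG k
    obtain ⟨-, -, ψ, -⟩ := hG l
    have h1 := Nat.card_congr ((φ.trans f.toEquiv).trans ψ.symm)
    rw [card_TVertex, card_TVertex] at h1
    have h2 : 2 ^ (k + 3) = 2 ^ (l + 3) := by
      have a1 : 1 ≤ 2 ^ (k + 3) := Nat.one_le_two_pow
      have a2 : 1 ≤ 2 ^ (l + 3) := Nat.one_le_two_pow
      omega
    have h3 := Nat.pow_right_injective (le_refl 2) h2
    omega

end Pool.Agent.Results.MP_3688cb_co.RotationSnarksEveryDepth
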